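import Pool.Agent.V1194.UD.Ret

/-!
Motivic t-structures and extensions of the base field: definitions and the two descent theorems.
-/

set_option autoImplicit false
set_option linter.unusedSectionVars false
set_option linter.checkUnivs false
set_option backward.isDefEq.respectTransparency false
set_option backward.defeqAttrib.useBackward true

open CategoryTheory Limits MonoidalCategory Pretriangulated Triangulated

namespace Pool.Agent.V1194.UD

universe v u w v' u' w' v'' u''

open Pool.Agent.Y116.MT Pool.Agent.V1151.MTC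

section defs

variable {C : Type u} [Category.{v} C] [Preadditive C] [HasZeroObject C] [HasShift C ℤ]
  [∀ n : ℤ, (shiftFunctor C n).Additive] [Pretriangulated C] [MonoidalCategory C]
  [SymmetricCategory C] [TensorTriangulated C]
  {D : Type u'} [Category.{v'} D] [Preadditive D] [HasZeroObject D] [HasShift D ℤ]
  [∀ n : ℤ, (shiftFunctor D n).Additive] [Pretriangulated D] [MonoidalCategory D]
  [SymmetricCategory D] [TensorTriangulated D]
  {Λ : Type*} {E : Λ → Type w} [∀ l, Field (E l)] {E' : Λ → Type w'} [∀ l, Field (E' l)]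

/-- The base change `U` respects the vanishing of the cohomology of the realisations. -/
def SameVanishing (U : C ⥤ D) (R : ∀ l, Realisation C (E l)) (R' : ∀ l, Realisation D (E' l)) :
    Prop :=
  ∀ (l : Λ) (X : C) (i : ℤ),
    IsZero ((R l).H.obj (X⟦i⟧)) ↔ IsZero ((R' l).H.obj ((U.obj X)⟦i⟧))

/-- A model of the base change `U : C ⥤ D` (for `C = DM_c(k)`, `D = DM_c(K)`, `k ⊆ K`: the dualizable
motives over an integral regular `k`-scheme `V` of finite type with a `k`-embedding of its function
field in `K`, and a closed point `s` of `V` with the residue field `k'`, a finite extension of `k`): a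
triangulated category `M` with the pull-back `pull : C ⥤ M`, the generic fibre `gen : M ⥤ D` (over
`K`), which are compatible with `U`, and a triangulated functor `spec : M ⥤ C` (the fibre at `s`
followed by the push-forward from `k'` to `k`) such that the identity is a retract of `pull ⋙ spec` (by
the trace, rational coefficients), and `spec Y` and `gen Y` have cohomology in the same degrees (the
realisation of `Y` has lisse cohomology sheaves). -/
structure Model (U : C ⥤ D) (R : ∀ l, Realisation C (E l)) (R' : ∀ l, Realisation D (E' l)) where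
  /-- the category of the model -/
  M : Type u''
  [category : Category.{v''} M]
  [preadditive : Preadditive M]
  [hasZeroObject : HasZeroObject M]
  [hasShift : HasShift M ℤ]
  [additive : ∀ n : ℤ, (shiftFunctor M n).Additive]
  [pretriangulated : Pretriangulated M]
  /-- the pull-back -/
  pull : C ⥤ M
  /-- the generic fibre -/
  gen : M ⥤ D
  /-- the specialization -/
  spec : M ⥤ C
  [commShift : spec.CommShift ℤ]
  [triangulated : spec.IsTriangulated]
  compatible : Nonempty (pull ⋙ gen ≅ U)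
  retract : Nonempty (Retract (𝟭 C) (pull ⋙ spec))
  same (l : Λ) (Y : M) (i : ℤ) :
    IsZero ((R l).H.obj ((spec.obj Y)⟦i⟧)) ↔ IsZero ((R' l).H.obj ((gen.obj Y)⟦i⟧))

attribute [instance] Model.category Model.preadditive Model.hasZeroObject Model.hasShift
  Model.additive Model.pretriangulated Model.commShift Model.triangulated

/-- Spreading out: every distinguished triangle of `D` with middle term `U X` is, up to isomorphism,
the generic fibre of a distinguished triangle of a model with middle term the pull-back of `X`. -/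
def Spreads (U : C ⥤ D) (R : ∀ l, Realisation C (E l)) (R' : ∀ l, Realisation D (E' l)) : Prop :=
  ∀ (X : C) (A B : D) (f : A ⟶ U.obj X) (g : U.obj X ⟶ B) (h : B ⟶ A⟦(1 : ℤ)⟧),
    Triangle.mk f g h ∈ distTriang D →
    ∃ (S : Model.{v, u, w, v', u', w', v'', u''} U R R') (A' B' : S.M) (f' : A' ⟶ S.pull.obj X)
      (g' : S.pull.obj X ⟶ B') (h' : B' ⟶ A'⟦(1 : ℤ)⟧),
      Triangle.mk f' g' h' ∈ distTriang S.M ∧ Nonempty (S.gen.obj A' ≅ A) ∧
        Nonempty (S.gen.obj B' ≅ B)

variable {U : C ⥤ D} {R : ∀ l, Realisation C (E l)} {R' : ∀ l, Realisation D (E' l)}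

lemma SameVanishing.le (h : SameVanishing U R R') (l : Λ) (n : ℤ) (X : C) :
    CohLE (R l) n X ↔ CohLE (R' l) n (U.obj X) :=
  forall_congr' fun i => imp_congr Iff.rfl (h l X i)

lemma SameVanishing.ge (h : SameVanishing U R R') (l : Λ) (n : ℤ) (X : C) :
    CohGE (R l) n X ↔ CohGE (R' l) n (U.obj X) :=
  forall_congr' fun i => imp_congr Iff.rfl (h l X i)

/-- descent from an extension of the base field -/
theorem descend [IsIdempotentComplete C] [U.Additive] [U.Faithful] (hs : SameVanishing U R R')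
    (hsp : Spreads.{v, u, w, v', u', w', v'', u''} U R R') {l₀ : Λ} (hI : Intrinsic R' l₀) :
    Intrinsic R l₀ := by
  have orth : ∀ {X Y : C} (f : X ⟶ Y), CohLE (R l₀) 0 X → CohGE (R l₀) 1 Y → f = 0 := by
    intro X Y f hX hY
    apply U.map_injective
    rw [hI.orthogonal (U.map f) ((hs.le l₀ 0 X).1 hX) ((hs.ge l₀ 1 Y).1 hY), Functor.map_zero]
  refine ⟨?_, orth, ?_, ?_⟩
  · intro X hX
    have h1 := hI.conservative (U.obj X) fun i => (hs l₀ X i).1 (hX i)
    rw [IsZero.iff_id_eq_zero] at h1 ⊢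
    apply U.map_injective
    rw [CategoryTheory.Functor.map_id, h1, Functor.map_zero]
  · intro X
    obtain ⟨A, B, f, g, h, hT, hA, hB⟩ := hI.truncation (U.obj X)
    obtain ⟨S, A', B', f', g', h', hT', ⟨eA⟩, ⟨eB⟩⟩ := hsp X A B f g h hT
    obtain ⟨ρ⟩ := S.retract
    have hd := S.spec.map_distinguished _ hT'
    have hA' : CohLE (R l₀) 0 (S.spec.obj A') := fun i hi =>
      (S.same l₀ A' i).2 ((CohLE.iso hA eA.symm) i hi)
    have hB' : CohGE (R l₀) 1 (S.spec.obj B') := fun i hi =>
      (S.same l₀ B' i).2 ((CohGE.iso hB eB.symm) i hi)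
    have hr : ρ.i.app X ≫ ρ.r.app X = 𝟙 X :=
      NatTrans.congr_app ρ.retract X
    exact trunc_retract (R := R l₀) orth (ρ.i.app X) (ρ.r.app X) hr hd hA' hB'
  · intro l X
    exact ⟨fun h => (hs.le l 0 X).2 ((hI.amplitude l _).1 ((hs.le l₀ 0 X).1 h)),
      fun h => (hs.ge l 0 X).2 ((hI.amplitude l _).2 ((hs.ge l₀ 0 X).1 h))⟩

end defs

section family

variable {ι : Type*} {C : ι → Type u} [∀ i, Category.{v} (C i)] [∀ i, Preadditive (C i)]
  [∀ i, HasZeroObject (C i)] [∀ i, HasShift (C i) ℤ]
  [∀ i, ∀ n : ℤ, (shiftFunctor (C i) n).Additive] [∀ i, Pretriangulated (C i)]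
  [∀ i, MonoidalCategory (C i)] [∀ i, SymmetricCategory (C i)] [∀ i, TensorTriangulated (C i)]
  {D : Type u'} [Category.{v'} D] [Preadditive D] [HasZeroObject D] [HasShift D ℤ]
  [∀ n : ℤ, (shiftFunctor D n).Additive] [Pretriangulated D] [MonoidalCategory D]
  [SymmetricCategory D] [TensorTriangulated D]
  {Λ : Type*} {E : Λ → Type w} [∀ l, Field (E l)] {E' : Λ → Type w'} [∀ l, Field (E' l)]

/-- Continuity: every morphism of `D` is, up to isomorphisms, the base change of a morphism of one of
the categories `C i` (for `D = DM_c(K)`, and the `C i = DM_c(k)` for the finitely generated subfields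
`k` of `K`). -/
def Continuous (U : ∀ i, C i ⥤ D) : Prop :=
  ∀ (Y Y' : D) (f : Y ⟶ Y'), ∃ (i : ι) (X X' : C i) (g : X ⟶ X') (e : Y ≅ (U i).obj X)
    (e' : Y' ≅ (U i).obj X'), f ≫ e'.hom = e.hom ≫ (U i).map g

variable {U : ∀ i, C i ⥤ D} {R : ∀ i, ∀ l, Realisation (C i) (E l)}
  {R' : ∀ l, Realisation D (E' l)}

/-- passage to the union -/
theorem ascend [∀ i, (U i).CommShift ℤ] [∀ i, (U i).IsTriangulated]
    (hs : ∀ i, SameVanishing (U i) (R i) R') (hc : Continuous U) {l₀ : Λ}
    (hI : ∀ i, Intrinsic (R i) l₀) : Intrinsic R' l₀ := by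
  have hobj : ∀ Y : D, ∃ (i : ι) (X : C i), Nonempty (Y ≅ (U i).obj X) := by
    intro Y
    obtain ⟨i, X, X', g, e, e', h⟩ := hc Y Y (𝟙 Y)
    exact ⟨i, X, ⟨e⟩⟩
  refine ⟨?_, ?_, ?_, ?_⟩
  · intro Y hY
    obtain ⟨i, X, ⟨e⟩⟩ := hobj Y
    have h1 : ∀ j : ℤ, IsZero ((R i l₀).H.obj (X⟦j⟧)) := fun j =>
      (hs i l₀ X j).2 ((hY j).of_iso ((R' l₀).H.mapIso ((shiftFunctor D j).mapIso e.symm)))
    have h2 := (hI i).conservative X h1
    exact ((U i).map_isZero h2).of_iso e
  · intro Y Y' f hY hY'
    obtain ⟨i, X, X', g, e, e', h⟩ := hc Y Y' f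
    have hg : g = 0 := (hI i).orthogonal g (((hs i).le l₀ 0 X).2 (CohLE.iso hY e))
      (((hs i).ge l₀ 1 X').2 (CohGE.iso hY' e'))
    rw [hg, Functor.map_zero, comp_zero] at h
    rw [← cancel_mono e'.hom, h, zero_comp]
  · intro Y
    obtain ⟨i, X, ⟨e⟩⟩ := hobj Y
    obtain ⟨A, B, f, g, k, hT, hA, hB⟩ := (hI i).truncation X
    have hd := (U i).map_distinguished _ hT
    refine ⟨(U i).obj A, (U i).obj B, (U i).map f ≫ e.inv, e.hom ≫ (U i).map g,
      (U i).map k ≫ ((U i).commShiftIso (1 : ℤ)).hom.app A, ?_, ((hs i).le l₀ 0 A).1 hA,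
      ((hs i).ge l₀ 1 B).1 hB⟩
    refine isomorphic_distinguished _ hd _ (Triangle.isoMk _ _ (Iso.refl _) e (Iso.refl _) ?_ ?_ ?_)
    · simp
    · simp
    · simp
  · intro l Y
    obtain ⟨i, X, ⟨e⟩⟩ := hobj Y
    constructor
    · intro h
      exact CohLE.iso (((hs i).le l 0 X).1 (((hI i).amplitude l X).1
        (((hs i).le l₀ 0 X).2 (CohLE.iso h e)))) e.symm
    · intro h
      exact CohGE.iso (((hs i).ge l 0 X).1 (((hI i).amplitude l X).2
        (((hs i).ge l₀ 0 X).2 (CohGE.iso h e)))) e.symm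

end family

end Pool.Agent.V1194.UD
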