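import Pool.Agent.V1151.MTC.Main

/-!
Truncation triangles pass to retracts, and to and from base changes of tensor triangulated categories
with realisations.
-/

set_option autoImplicit false
set_option linter.unusedSectionVars false
set_option backward.isDefEq.respectTransparency false
set_option backward.defeqAttrib.useBackward true

open CategoryTheory Limits MonoidalCategory Pretriangulated Triangulated

namespace Pool.Agent.V1194.UD

universe v u w v' u' v'' u''

open Pool.Agent.Y116.MT Pool.Agent.V1151.MTC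

section hom

variable {C : Type u} [Category.{v} C] [Preadditive C] [HasZeroObject C] [HasShift C ℤ]
  [∀ n : ℤ, (shiftFunctor C n).Additive] [Pretriangulated C]
  {A : Type*} [Category A] [Abelian A] (H : C ⥤ A) [H.IsHomological]
  {X Y Z : C} {f : X ⟶ Y} {g : Y ⟶ Z} {h : Z ⟶ X⟦(1 : ℤ)⟧}
  (hT : Triangle.mk f g h ∈ distTriang C)

include hT

lemma hzero3 (n : ℤ) (h1 : Epi (H.map (f⟦n⟧'))) (h2 : Mono (H.map (f⟦n + 1⟧'))) :
    IsZero (H.obj (Z⟦n⟧)) := by
  let _ := Functor.ShiftSequence.tautological H ℤ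
  have e1 := (H.homologySequence_epi_shift_map_mor₁_iff _ hT n).1 h1
  have e2 := (H.homologySequence_mono_shift_map_mor₁_iff _ hT n (n + 1) rfl).1 h2
  exact (H.homologySequence_exact₃ _ hT n (n + 1) rfl).isZero_X₂ e1 e2

end hom

section ret

variable {C : Type u} [Category.{v} C] [Preadditive C] [HasZeroObject C] [HasShift C ℤ]
  [∀ n : ℤ, (shiftFunctor C n).Additive] [Pretriangulated C] [MonoidalCategory C]
  [SymmetricCategory C] [TensorTriangulated C]

variable {E : Type w} [Field E] {R : Realisation C E}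

lemma isZero_of_retract {D : Type*} [Category D] [HasZeroMorphisms D] {X Y : D} (i : X ⟶ Y)
    (r : Y ⟶ X) (h : i ≫ r = 𝟙 _) (hY : IsZero Y) : IsZero X := by
  rw [IsZero.iff_id_eq_zero, ← h, hY.eq_of_tgt i 0, zero_comp]

lemma cohLE_of_retract {X Y : C} {n : ℤ} (i : X ⟶ Y) (r : Y ⟶ X) (h : i ≫ r = 𝟙 _)
    (hY : CohLE R n Y) : CohLE R n X := fun m hm =>
  isZero_of_retract (R.H.map (i⟦m⟧')) (R.H.map (r⟦m⟧')) (by
    rw [← Functor.map_comp, ← Functor.map_comp, h, CategoryTheory.Functor.map_id, CategoryTheory.Functor.map_id]) (hY m hm)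

lemma cohGE_of_retract {X Y : C} {n : ℤ} (i : X ⟶ Y) (r : Y ⟶ X) (h : i ≫ r = 𝟙 _)
    (hY : CohGE R n Y) : CohGE R n X := fun m hm =>
  isZero_of_retract (R.H.map (i⟦m⟧')) (R.H.map (r⟦m⟧')) (by
    rw [← Functor.map_comp, ← Functor.map_comp, h, CategoryTheory.Functor.map_id, CategoryTheory.Functor.map_id]) (hY m hm)

/-- a retract of a mono (epi) is mono (epi) -/
lemma mono_of_retract {D : Type*} [Category D] {A A' X X' : D} {a : A ⟶ X} {a' : A' ⟶ X'}
    (s : A' ⟶ A) (q : A ⟶ A') (i : X' ⟶ X) (hsq : s ≫ q = 𝟙 _) (h : s ≫ a = a' ≫ i)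
    (ha : Mono a) : Mono a' := by
  constructor
  intro W u v huv
  have h1 : u ≫ s = v ≫ s := by
    rw [← cancel_mono a, Category.assoc, Category.assoc, h, reassoc_of% huv]
  have h2 : u ≫ (s ≫ q) = v ≫ (s ≫ q) := by rw [← Category.assoc, ← Category.assoc, h1]
  rwa [hsq, Category.comp_id, Category.comp_id] at h2

lemma epi_of_retract {D : Type*} [Category D] {A A' X X' : D} {a : A ⟶ X} {a' : A' ⟶ X'}
    (q : A ⟶ A') (i : X' ⟶ X) (p : X ⟶ X') (hip : i ≫ p = 𝟙 _) (h : a ≫ p = q ≫ a')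
    (ha : Epi a) : Epi a' := by
  constructor
  intro W u v huv
  have h1 : p ≫ u = p ≫ v := by
    rw [← cancel_epi a, ← Category.assoc, ← Category.assoc, h, Category.assoc, Category.assoc, huv]
  have h2 : (i ≫ p) ≫ u = (i ≫ p) ≫ v := by rw [Category.assoc, Category.assoc, h1]
  rwa [hip, Category.id_comp, Category.id_comp] at h2

/-- truncation triangles pass to retracts -/
theorem trunc_retract [IsIdempotentComplete C]
    (orth : ∀ {X Y : C} (f : X ⟶ Y), CohLE R 0 X → CohGE R 1 Y → f = 0)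
    {X Y A B : C} (i : X ⟶ Y) (p : Y ⟶ X) (hip : i ≫ p = 𝟙 _) {a : A ⟶ Y} {b : Y ⟶ B}
    {c : B ⟶ A⟦(1 : ℤ)⟧} (hT : Triangle.mk a b c ∈ distTriang C) (hA : CohLE R 0 A)
    (hB : CohGE R 1 B) :
    ∃ (A' B' : C) (f : A' ⟶ X) (g : X ⟶ B') (h : B' ⟶ A'⟦(1 : ℤ)⟧),
      Triangle.mk f g h ∈ distTriang C ∧ CohLE R 0 A' ∧ CohGE R 1 B' := by
  -- lift the idempotent
  obtain ⟨eA, heA⟩ := ce2 hT (a ≫ p ≫ i) (by
    simp only [Category.assoc]
    exact orth _ hA hB)
  have hep : (p ≫ i) ≫ (p ≫ i) = p ≫ i := by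
    rw [Category.assoc, reassoc_of% hip]
  have hz : (eA ≫ eA - eA) ≫ a = 0 := by
    have h1 : eA ≫ eA ≫ a = eA ≫ a := by
      rw [← heA, ← Category.assoc, ← heA, Category.assoc, hep]
    rw [Preadditive.sub_comp, Category.assoc, h1, sub_self]
  have hid : eA ≫ eA = eA := by
    have h2 : (eA ≫ eA - eA)⟦(1 : ℤ)⟧' ≫ a⟦(1 : ℤ)⟧' = 0 := by
      rw [← Functor.map_comp, hz, Functor.map_zero]
    obtain ⟨l, hl⟩ := ce1 hT _ h2
    have h3 : CohLE R 0 (A⟦(1 : ℤ)⟧) := by
      have h4 : CohLE R (-1) (A⟦(1 : ℤ)⟧) := CohLE.shift (by norm_num) hA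
      exact fun j hj => h4 j (by omega)
    have h5 : l = 0 := orth l h3 hB
    rw [h5, zero_comp] at hl
    have h6 : eA ≫ eA - eA = 0 := (shiftFunctor C (1 : ℤ)).map_injective (by
      rw [hl, Functor.map_zero])
    exact sub_eq_zero.1 h6
  obtain ⟨A', s, q, hsq, hqs⟩ := IsIdempotentComplete.idempotents_split A eA hid
  obtain ⟨B', g, h, hT'⟩ := distinguished_cocone_triangle (s ≫ a ≫ p)
  have e1 : s ≫ a = (s ≫ a ≫ p) ≫ i := by
    rw [Category.assoc, Category.assoc, heA, ← hqs, Category.assoc, reassoc_of% hsq]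
  have e2 : a ≫ p = q ≫ (s ≫ a ≫ p) := by
    rw [reassoc_of% hqs, ← reassoc_of% heA, hip, Category.comp_id]
  refine ⟨A', B', s ≫ a ≫ p, g, h, hT', cohLE_of_retract s q hsq hA, ?_⟩
  intro n hn
  apply hzero3 R.H hT' n
  · refine epi_of_retract (a := R.H.map (a⟦n⟧')) (R.H.map (q⟦n⟧')) (R.H.map (i⟦n⟧'))
      (R.H.map (p⟦n⟧')) ?_ ?_ (hepi1 R.H hT n (hB n hn))
    · rw [← Functor.map_comp, ← Functor.map_comp, hip, CategoryTheory.Functor.map_id, CategoryTheory.Functor.map_id]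
    · have h1 := congrArg (fun t => R.H.map (t⟦n⟧')) e2
      simpa only [Functor.map_comp] using h1
  · refine mono_of_retract (a := R.H.map (a⟦n + 1⟧')) (R.H.map (s⟦n + 1⟧'))
      (R.H.map (q⟦n + 1⟧')) (R.H.map (i⟦n + 1⟧')) ?_ ?_ (hmono1 R.H hT (n + 1) (hB _ (by omega)))
    · rw [← Functor.map_comp, ← Functor.map_comp, hsq, CategoryTheory.Functor.map_id, CategoryTheory.Functor.map_id]
    · have h1 := congrArg (fun t => R.H.map (t⟦n + 1⟧')) e1
      simpa only [Functor.map_comp, Category.assoc] using h1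

end ret

end Pool.Agent.V1194.UD
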